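import Mathlib

set_option autoImplicit false
open Set Topology

universe u v w

namespace Pool.Agent.Lib.MP_723ccc_gt

/-- `i : X → V` exhibits the topological vector space `V` as the free topological vector space over
`X`: `i` is continuous and for every (Hausdorff) topological vector space `E` and every continuous
map `f : X → E` there is a unique continuous linear operator `F : V → E` with `f = F ∘ i`. -/
structure IsFreeTVS {X : Type u} {V : Type v} [TopologicalSpace X] [AddCommGroup V] [Module ℝ V]
    [TopologicalSpace V] (i : X → V) : Prop where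
  continuous : Continuous i
  existsUnique_lift : ∀ (E : Type w) [AddCommGroup E] [Module ℝ E] [TopologicalSpace E]
    [IsTopologicalAddGroup E] [ContinuousSMul ℝ E] [T2Space E] (f : X → E), Continuous f →
    ∃! F : V →L[ℝ] E, ∀ x, F (i x) = f x

/-- The level `sp_n(X)`: the sums of `n` terms `c_j • i(x_j)` with `c_j ∈ [-n, n]`. -/
def sp {X : Type u} {V : Type v} [AddCommGroup V] [Module ℝ V] (i : X → V) (n : ℕ) : Set V :=
  {v | ∃ (c : Fin n → ℝ) (x : Fin n → X), (∀ j, c j ∈ Icc (-(n : ℝ)) n) ∧ v = ∑ j, c j • i (x j)}

/-- Countable tightness: every point in the closure of a set `A` is in the closure of a countable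
subset of `A`. -/
def CountablyTight (Z : Type v) [TopologicalSpace Z] : Prop :=
  ∀ (A : Set Z), ∀ z ∈ closure A, ∃ C ⊆ A, C.Countable ∧ z ∈ closure C

end Pool.Agent.Lib.MP_723ccc_gt
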