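import Mathlib
import Pool.Agent.Lib.MP_723ccc_gt.Defs

set_option autoImplicit false
open Set Topology

universe u v w

namespace Pool.Agent.Lib.MP_723ccc_gt

/-- Sanity check: every space has a free topological vector space in the sense of `IsFreeTVS`
(the finitely supported real functions with the finest vector space topology that makes the
canonical map continuous). -/
theorem exists_isFreeTVS (X : Type u) [TopologicalSpace X] :
    ∃ (t : TopologicalSpace (X →₀ ℝ)), @IsTopologicalAddGroup (X →₀ ℝ) t _ ∧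
      @ContinuousSMul ℝ (X →₀ ℝ) _ _ t ∧
      @IsFreeTVS.{u, u, w} X (X →₀ ℝ) _ _ _ t (fun x => Finsupp.single x 1) := by
  let S : Set (TopologicalSpace (X →₀ ℝ)) := {t | @IsTopologicalAddGroup (X →₀ ℝ) t _ ∧
      @ContinuousSMul ℝ (X →₀ ℝ) _ _ t ∧
      @Continuous X (X →₀ ℝ) _ t (fun x => Finsupp.single x 1)}
  have h1 : @IsTopologicalAddGroup (X →₀ ℝ) (sInf S) _ :=
    topologicalAddGroup_sInf fun t ht => ht.1
  have h2 : @ContinuousSMul ℝ (X →₀ ℝ) _ _ (sInf S) := continuousSMul_sInf fun t ht => ht.2.1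
  refine ⟨sInf S, h1, h2, ?_⟩
  let _ : TopologicalSpace (X →₀ ℝ) := sInf S
  refine ⟨continuous_sInf_rng.mpr fun t ht => ht.2.2, ?_⟩
  intro E _ _ tE _ _ _ f hf
  let L : (X →₀ ℝ) →ₗ[ℝ] E := Finsupp.lift E ℝ X f
  have hL : ∀ x, L (Finsupp.single x 1) = f x := by
    intro x
    simp [L]
  have hmem : TopologicalSpace.induced L tE ∈ S := by
    refine ⟨topologicalAddGroup_induced L, continuousSMul_induced L, ?_⟩
    rw [continuous_induced_rng]
    refine hf.congr fun x => ?_
    exact (hL x).symm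
  have hcont : Continuous L := continuous_iff_le_induced.mpr (sInf_le hmem)
  refine ⟨⟨L, hcont⟩, hL, ?_⟩
  intro G hG
  ext y
  have h1 : ∀ x, G (Finsupp.single x 1) = L (Finsupp.single x 1) := fun x => by
    rw [hG, hL]
  have h2 : (G : (X →₀ ℝ) →ₗ[ℝ] E) = L := by
    apply Finsupp.lhom_ext'
    intro x
    ext
    exact h1 x
  exact LinearMap.congr_fun h2 y

end Pool.Agent.Lib.MP_723ccc_gt
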