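import Mathlib
import Pool.Agent.Lib.MP_723ccc_gt.Defs

set_option autoImplicit false
open Set Topology Cardinal

universe u v w

namespace Pool.Agent.Lib.MP_723ccc_gt

/-- The first uncountable ordinal as a type. -/
abbrev Om : Type := (Ordinal.omega 1).ToType

lemma mk_Om : #Om = ℵ₁ := by
  simp [Om]

lemma Om_uncountable : ¬ (Set.univ : Set Om).Countable := by
  intro h
  have h1 := h.le_aleph0
  rw [Cardinal.mk_univ, mk_Om] at h1
  exact absurd h1 (not_le.mpr Cardinal.aleph0_lt_aleph_one)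

lemma Om_Iio_countable (a : Om) : (Iio a).Countable := by
  have h : #(Iio a) < #Om := Cardinal.mk_Iio_lt a (by simp)
  rw [mk_Om] at h
  rw [← Cardinal.le_aleph0_iff_set_countable]
  exact Cardinal.lt_aleph_one_iff.mp h

lemma Om_bdd (S : Set Om) (hS : S.Countable) : ∃ b, ∀ s ∈ S, s < b := by
  by_contra hcon
  push Not at hcon
  have h1 : IsCofinal S := hcon
  have h2 := Order.cof_le h1
  rw [Ordinal.cof_toType, Cardinal.cof_omega_one] at h2
  exact absurd (h2.trans hS.le_aleph0) (not_le.mpr Cardinal.aleph0_lt_aleph_one)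

/-- In a nonseparable metric space there is a separated family indexed by `ω₁`. -/
lemma exists_separated {X : Type u} [MetricSpace X] (h : ¬ SecondCountableTopology X) :
    ∃ (ε : ℝ) (F : Om → X), 0 < ε ∧ Pairwise fun ξ η => ε ≤ dist (F ξ) (F η) := by
  have h1 : ∃ ε > (0 : ℝ), ∀ s : Set X, s.Countable → ∃ x, ∀ y ∈ s, ε < dist x y := by
    by_contra hcon
    push Not at hcon
    exact h (Metric.secondCountable_of_almost_dense_set hcon)
  obtain ⟨ε, hε, h2⟩ := h1
  have h3 : ∀ s : Set X, ∃ x, s.Countable → ∀ y ∈ s, ε < dist x y := by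
    intro s
    by_cases hs : s.Countable
    · obtain ⟨x, hx⟩ := h2 s hs
      exact ⟨x, fun _ => hx⟩
    · obtain ⟨x, -⟩ := h2 ∅ countable_empty
      exact ⟨x, fun h' => absurd h' hs⟩
  choose g hg using h3
  let F : Om → X := (wellFounded_lt (α := Om)).fix
    (fun ξ rec => g {x | ∃ η, ∃ h : η < ξ, x = rec η h})
  have hF : ∀ ξ, F ξ = g {x | ∃ η, ∃ _ : η < ξ, x = F η} := by
    intro ξ
    exact (wellFounded_lt (α := Om)).fix_eq _ ξ
  have hlt : ∀ ξ η, η < ξ → ε < dist (F ξ) (F η) := by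
    intro ξ η h
    rw [hF ξ]
    refine hg _ ?_ _ ⟨η, h, rfl⟩
    refine ((Om_Iio_countable ξ).image F).mono ?_
    rintro _ ⟨ζ, hζ, rfl⟩
    exact ⟨ζ, hζ, rfl⟩
  refine ⟨ε, F, hε, fun ξ η hne => ?_⟩
  rcases lt_or_gt_of_ne hne with h | h
  · rw [dist_comm]
    exact (hlt _ _ h).le
  · exact (hlt _ _ h).le

/-- Bounding a function of two variables on a countable set by a sum of functions of one
variable. -/
lemma exists_sum_bound {α : Type u} (κ : α → α → ℝ) (s : Set α) (hs : s.Countable) :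
    ∃ r : α → ℝ, ∀ x ∈ s, ∀ y ∈ s, κ x y ≤ r x + r y := by
  classical
  obtain ⟨ν, hν⟩ := countable_iff_exists_injOn.mp hs
  have hfin : ∀ x, {y | y ∈ s ∧ ν y ≤ ν x}.Finite := by
    intro x
    refine Set.Finite.of_finite_image ((finite_Iic (ν x)).subset ?_) (f := ν) ?_
    · rintro _ ⟨y, hy, rfl⟩
      exact hy.2
    · exact hν.mono fun y hy => hy.1
  let r : α → ℝ := fun x => ∑ y ∈ (hfin x).toFinset, (|κ x y| + |κ y x|)
  have hr0 : ∀ x, 0 ≤ r x := fun x => Finset.sum_nonneg fun y _ => by positivity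
  have hr : ∀ x y, y ∈ s → ν y ≤ ν x → |κ x y| + |κ y x| ≤ r x := by
    intro x y hy hyx
    refine Finset.single_le_sum (f := fun y => |κ x y| + |κ y x|) (fun z _ => by positivity) ?_
    rw [Set.Finite.mem_toFinset]
    exact ⟨hy, hyx⟩
  refine ⟨r, fun x hx y hy => ?_⟩
  rcases le_total (ν y) (ν x) with h | h
  · have h1 := hr x y hy h
    have h2 := hr0 y
    have h3 := le_abs_self (κ x y)
    have h4 := abs_nonneg (κ y x)
    linarith
  · have h1 := hr y x hx h
    have h2 := hr0 x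
    have h3 := le_abs_self (κ x y)
    have h4 := abs_nonneg (κ y x)
    linarith

variable {X : Type u} {V : Type v} [TopologicalSpace X] [AddCommGroup V] [Module ℝ V]
  [TopologicalSpace V]

/-- Continuous functionals with prescribed values on a closed discrete family. -/
lemma exists_functional [T2Space X] [NormalSpace X] (i : X → V) (hi : IsFreeTVS.{u, v, w} i)
    (F : Om → X) (hF : @IsClosedEmbedding Om X ⊥ _ F) (r : Om → ℝ) :
    ∃ T : V → ℝ, Continuous T ∧ (∀ x y, T (x + y) = T x + T y) ∧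
      (∀ (c : ℝ) x, T (c • x) = c * T x) ∧ ∀ ξ, T (i (F ξ)) = r ξ := by
  let _ : TopologicalSpace Om := ⊥
  have : DiscreteTopology Om := ⟨rfl⟩
  obtain ⟨φ, hφ⟩ := ContinuousMap.exists_extension' hF ⟨r, continuous_of_discreteTopology⟩
  obtain ⟨T, hT, -⟩ := hi.existsUnique_lift (PUnit.{w + 1} → ℝ) (fun x _ => φ x)
    (continuous_pi fun _ => φ.continuous)
  refine ⟨fun x => T x PUnit.unit, (continuous_apply _).comp T.continuous, ?_, ?_, ?_⟩
  · intro x y
    simp
  · intro c x
    simp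
  · intro ξ
    change T (i (F ξ)) PUnit.unit = r ξ
    rw [hT]
    exact congrFun hφ ξ

/-- The main step: in the nonseparable case `sp_2(X)` is not countably tight. -/
theorem not_countablyTight_of_family [T2Space X] [NormalSpace X]
    [IsTopologicalAddGroup V] [ContinuousSMul ℝ V]
    (i : X → V) (hi : IsFreeTVS.{u, v, w} i)
    (F : Om → X) (hF : @IsClosedEmbedding Om X ⊥ _ F) : ¬ CountablyTight (sp i 2) := by
  classical
  intro hCT
  -- injections of the initial segments into the naturals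
  have he : ∀ ξ : Om, ∃ e : Om → ℕ, InjOn e (Iio ξ) := fun ξ =>
    countable_iff_exists_injOn.mp (Om_Iio_countable ξ)
  choose e he using he
  let c : Om → Om → ℝ := fun η ξ => 1 / ((e ξ η : ℝ) + 1)
  have hc0 : ∀ η ξ, 0 < c η ξ := fun η ξ => by positivity
  have hc1 : ∀ η ξ, c η ξ ≤ 1 := fun η ξ => by
    simp only [c]
    rw [div_le_one (by positivity)]
    have : (0 : ℝ) ≤ e ξ η := Nat.cast_nonneg _
    linarith
  -- the points of the set `A`
  let p : Om → Om → V := fun η ξ => c η ξ • i (F η) + c η ξ • i (F ξ)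
  have hp : ∀ η ξ, p η ξ ∈ sp i 2 := by
    intro η ξ
    refine ⟨![c η ξ, c η ξ], ![F η, F ξ], ?_, ?_⟩
    · intro j
      have h1 := hc0 η ξ
      have h2 := hc1 η ξ
      fin_cases j <;> simp <;> constructor <;> linarith
    · simp [p, Fin.sum_univ_two]
  obtain ⟨o, -⟩ := Om_bdd ∅ countable_empty
  have hzero : (0 : V) ∈ sp i 2 := by
    refine ⟨fun _ => 0, fun _ => F o, fun j => by simp, by simp⟩
  let A : Set (sp i 2) := {v | ∃ η ξ, η < ξ ∧ v = ⟨p η ξ, hp η ξ⟩}
  -- `0` is in the closure of `A`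
  have hcl : (⟨0, hzero⟩ : sp i 2) ∈ closure A := by
    rw [mem_closure_iff_nhds]
    intro N hN
    rw [nhds_subtype_eq_comap, Filter.mem_comap] at hN
    obtain ⟨U, hU, hUN⟩ := hN
    obtain ⟨W, hW, hWU⟩ := exists_nhds_zero_half hU
    have hm : ∀ ξ : Om, ∃ m : ℕ, ∀ k ≥ m, (1 / ((k : ℝ) + 1)) • i (F ξ) ∈ W := by
      intro ξ
      have h1 : Filter.Tendsto (fun k : ℕ => (1 / ((k : ℝ) + 1)) • i (F ξ)) Filter.atTop (𝓝 0) := by
        have := (tendsto_one_div_add_atTop_nhds_zero_nat (𝕜 := ℝ)).smul_const (i (F ξ))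
        rwa [zero_smul] at this
      exact Filter.eventually_atTop.mp (h1.eventually_mem hW)
    choose m hm using hm
    -- an uncountable fibre
    have hfib : ∃ n, ¬ {ξ | m ξ = n}.Countable := by
      by_contra hcon
      push Not at hcon
      apply Om_uncountable
      refine (countable_iUnion hcon).mono ?_
      intro ξ _
      exact mem_iUnion.mpr ⟨m ξ, rfl⟩
    obtain ⟨n, hn⟩ := hfib
    have hinf : {ξ | m ξ = n}.Infinite := fun h => hn h.countable
    obtain ⟨P₀, hP₀, hP₀inf, hP₀c⟩ : ∃ P₀ ⊆ {ξ | m ξ = n}, P₀.Infinite ∧ P₀.Countable := by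
      let f := hinf.natEmbedding
      refine ⟨range fun k => (f k : Om), ?_, ?_, countable_range _⟩
      · rintro _ ⟨k, rfl⟩
        exact (f k).2
      · exact infinite_range_of_injective (Subtype.val_injective.comp f.injective)
    obtain ⟨b, hb⟩ := Om_bdd P₀ hP₀c
    obtain ⟨ξ, hξm, hξb⟩ : ∃ ξ, m ξ = n ∧ b ≤ ξ := by
      by_contra hcon
      push Not at hcon
      exact hn ((Om_Iio_countable b).mono fun ξ hξ => hcon ξ hξ)
    have hP₀ξ : P₀ ⊆ Iio ξ := fun η hη => (hb η hη).trans_le hξb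
    have himg : (e ξ '' P₀).Infinite := hP₀inf.image ((he ξ).mono hP₀ξ)
    obtain ⟨_, ⟨η, hη, rfl⟩, hge⟩ := himg.exists_gt n
    refine ⟨⟨p η ξ, hp η ξ⟩, hUN ?_, η, ξ, hP₀ξ hη, rfl⟩
    refine hWU _ ?_ _ ?_
    · exact hm η (e ξ η) (by rw [show m η = n from hP₀ hη]; exact hge.le)
    · exact hm ξ (e ξ η) (by rw [hξm]; exact hge.le)
  -- contradiction with countable tightness
  obtain ⟨C, hCA, hCc, hCcl⟩ := hCT A _ hcl
  have hCpt : ∀ v : C, ∃ q : Om × Om, q.1 < q.2 ∧ (v : sp i 2) = ⟨p q.1 q.2, hp q.1 q.2⟩ := by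
    intro v
    obtain ⟨η, ξ, h1, h2⟩ := hCA v.2
    exact ⟨(η, ξ), h1, h2⟩
  choose q hq1 hq2 using hCpt
  have : Countable C := hCc.to_subtype
  let S : Set Om := range (fun v : C => (q v).1) ∪ range (fun v : C => (q v).2)
  have hS : S.Countable := (countable_range _).union (countable_range _)
  obtain ⟨r, hr⟩ := exists_sum_bound (fun η ξ => (e ξ η : ℝ) + 1) S hS
  obtain ⟨T, hTc, hTadd, hTsmul, hT⟩ := exists_functional i hi F hF r
  have hclosed : IsClosed {v : sp i 2 | 1 ≤ T v} :=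
    isClosed_le continuous_const (hTc.comp continuous_subtype_val)
  have hsub : C ⊆ {v : sp i 2 | 1 ≤ T v} := by
    intro v hv
    have h2 := hq2 ⟨v, hv⟩
    simp only at h2
    rw [mem_ofPred_eq, h2]
    simp only [p, hTadd, hTsmul, hT]
    have h3 := hr _ (Or.inl ⟨⟨v, hv⟩, rfl⟩) _ (Or.inr ⟨⟨v, hv⟩, rfl⟩)
    have h4 := hc0 (q ⟨v, hv⟩).1 (q ⟨v, hv⟩).2
    have h5 : c (q ⟨v, hv⟩).1 (q ⟨v, hv⟩).2 * ((e (q ⟨v, hv⟩).2 (q ⟨v, hv⟩).1 : ℝ) + 1) = 1 := by
      simp only [c]
      field_simp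
    nlinarith [mul_le_mul_of_nonneg_left h3 h4.le]
  have h0 := closure_minimal hsub hclosed hCcl
  rw [mem_ofPred_eq] at h0
  have hT0 : T (0 : V) = 0 := by
    have := hTsmul 0 0
    simpa using this
  simp only [hT0] at h0
  linarith

/-- If `sp_2(X)` is countably tight and `X` is metrizable then `X` is separable. -/
theorem separable_of_countablyTight [TopologicalSpace.MetrizableSpace X]
    [IsTopologicalAddGroup V] [ContinuousSMul ℝ V]
    (i : X → V) (hi : IsFreeTVS.{u, v, w} i) (h : CountablyTight (sp i 2)) :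
    TopologicalSpace.SeparableSpace X := by
  let _ := TopologicalSpace.metrizableSpaceMetric X
  have h2 : SecondCountableTopology X := by
    by_contra hcon
    obtain ⟨ε, F, hε, hF⟩ := exists_separated hcon
    let _ : TopologicalSpace Om := ⊥
    have : DiscreteTopology Om := ⟨rfl⟩
    exact not_countablyTight_of_family i hi F
      (Metric.isClosedEmbedding_of_pairwise_le_dist hε hF) h
  infer_instance

end Pool.Agent.Lib.MP_723ccc_gt
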