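import Mathlib
import Pool.Agent.Lib.MP_723ccc_gt.Defs

set_option autoImplicit false
open Set Topology

universe u v w

namespace Pool.Agent.Lib.MP_723ccc_gt

/-- A continuous image of a second countable space is countably tight. -/
lemma countablyTight_of_surjective {S : Type u} {Z : Type v} [TopologicalSpace S]
    [SecondCountableTopology S] [TopologicalSpace Z] (q : S → Z) (hq : Continuous q)
    (hs : Function.Surjective q) : CountablyTight Z := by
  intro A z hz
  obtain ⟨T, hTc, hTd⟩ := TopologicalSpace.exists_countable_dense (q ⁻¹' A)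
  refine ⟨(fun p : q ⁻¹' A => q p) '' T, ?_, hTc.image _, ?_⟩
  · rintro _ ⟨p, -, rfl⟩
    exact p.2
  · have hcont : Continuous (fun p : q ⁻¹' A => q p) := hq.comp continuous_subtype_val
    have h1 := image_closure_subset_closure_image (s := T) hcont
    rw [hTd.closure_eq, image_univ] at h1
    have h2 : A ⊆ closure ((fun p : q ⁻¹' A => q p) '' T) := by
      intro a ha
      obtain ⟨p, rfl⟩ := hs a
      exact h1 ⟨⟨p, ha⟩, rfl⟩
    exact closure_minimal h2 isClosed_closure hz

/-- If `X` is separable metrizable then all the levels `sp_n(X)` are countably tight. -/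
theorem sp_countablyTight_of_separable {X : Type u} {V : Type v} [TopologicalSpace X]
    [TopologicalSpace.MetrizableSpace X] [TopologicalSpace.SeparableSpace X]
    [AddCommGroup V] [Module ℝ V] [TopologicalSpace V] [IsTopologicalAddGroup V]
    [ContinuousSMul ℝ V] (i : X → V) (hi : Continuous i) (n : ℕ) :
    CountablyTight (sp i n) := by
  have : SecondCountableTopology X := by
    let := TopologicalSpace.metrizableSpaceMetric X
    exact UniformSpace.secondCountable_of_separable X
  refine countablyTight_of_surjective
    (S := ({p : (Fin n → ℝ) × (Fin n → X) | ∀ j, p.1 j ∈ Icc (-(n : ℝ)) n} :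
      Set ((Fin n → ℝ) × (Fin n → X))))
    (fun p => ⟨∑ j, p.1.1 j • i (p.1.2 j), p.1.1, p.1.2, p.2, rfl⟩) ?_ ?_
  · refine Continuous.subtype_mk ?_ _
    refine continuous_finsetSum _ fun j _ => ?_
    refine Continuous.smul ?_ ?_
    · exact (continuous_apply j).comp (continuous_fst.comp continuous_subtype_val)
    · exact hi.comp ((continuous_apply j).comp (continuous_snd.comp continuous_subtype_val))
  · rintro ⟨v, c, x, hc, rfl⟩
    exact ⟨⟨(c, x), hc⟩, rfl⟩

end Pool.Agent.Lib.MP_723ccc_gt
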